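import Pool.Agent.BSE.Stmts
import Pool.Agent.Helper47_FR.Up

/-!
# ONE: the one-body inequality
-/

open MeasureTheory Matrix Finset
open scoped ComplexConjugate

namespace Pool.Agent.BSE.H59

open Pool.Agent.Helper64_FR

variable {n : ℕ}

theorem dv_dv (B : Finset (Fin n)) (y : Fin n → ℝ) (i : Fin n) :
    H47.dv B (H47.dv Finset.univ y) i = H47.dv B y i := by
  by_cases hi : i ∈ B
  · have hb : (B.card : ℝ) ≠ 0 := by
      rw [Nat.cast_ne_zero]
      exact Finset.card_ne_zero.2 ⟨i, hi⟩
    have h1 : ∀ j ∈ B, H47.dv Finset.univ y j =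
        y j - (∑ l ∈ Finset.univ, y l) / (Finset.univ : Finset (Fin n)).card := by
      intro j _
      exact H47.dv_of_mem (Finset.mem_univ j) y
    rw [H47.dv_of_mem hi, H47.dv_of_mem hi, Finset.sum_congr rfl h1, h1 i hi,
      Finset.sum_sub_distrib, Finset.sum_const, nsmul_eq_mul]
    field_simp
    ring
  · rw [H47.dv_of_notMem hi, H47.dv_of_notMem hi]

theorem one : ONEStmt := by
  classical
  intro n α hα w hw y
  obtain ⟨T, hbij, hT⟩ := hα
  by_cases hd : H47.dv Finset.univ y = 0
  · have h1 : ∑ i, H47.dv Finset.univ y i ^ 2 = 0 := by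
      rw [hd]
      simp
    rw [h1, mul_zero]
    exact Finset.sum_nonneg fun B _ => mul_nonneg (hw B) (Finset.sum_nonneg fun i _ => sq_nonneg _)
  · obtain ⟨x, c, hc0, hc, hcx, hle⟩ :=
      H47.upb w hw (H47.dv Finset.univ y) (H47.sum_dv Finset.univ y) hd
    have h1 : α.lamMin w ≤ x := by
      apply csInf_le (H47.eig_bdd α w hw)
      refine ⟨T (H47.dg c), ?_, ?_⟩
      · intro h
        obtain ⟨X, hX, huniq⟩ := hbij (0 : Fin α.dim → ℂ)
        have h2 := huniq (H47.dg c) ⟨H47.trace_dg hc0, h⟩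
        have h3 := huniq 0 ⟨Matrix.trace_zero _ _, map_zero T⟩
        apply hc
        funext i
        have h4 : H47.dg c i i = (0 : Matrix (Fin n) (Fin n) ℂ) i i := by rw [h2, h3]
        unfold H47.dg at h4
        rw [Matrix.diagonal_apply_eq, Matrix.zero_apply] at h4
        exact_mod_cast h4
      · have h2 := H47.lap_tv T hT w hc0 x hcx
        exact congrArg WithLp.ofLp h2
    have h2 : α.lamMin w * ∑ i, H47.dv Finset.univ y i ^ 2 ≤
        x * ∑ i, H47.dv Finset.univ y i ^ 2 :=
      mul_le_mul_of_nonneg_right h1 (Finset.sum_nonneg fun i _ => sq_nonneg _)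
    refine h2.trans (hle.trans (le_of_eq ?_))
    apply Finset.sum_congr rfl
    intro B _
    congr 1
    apply Finset.sum_congr rfl
    intro i _
    rw [dv_dv]

end Pool.Agent.BSE.H59
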