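import Pool.Agent.BSE.Stmts

/-!
# CE1: an identity for fourth powers of differences
-/

open MeasureTheory Matrix Finset
open scoped ComplexConjugate

namespace Pool.Agent.BSE.H59

open Pool.Agent.Helper64_FR

variable {n : ℕ}

theorem sum_sq_sub (B : Finset (Fin n)) (c : Fin n → ℝ) (t : ℝ) :
    ∑ i ∈ B, (c i - t) ^ 2 = ∑ i ∈ B, c i ^ 2 - 2 * t * ∑ i ∈ B, c i + B.card * t ^ 2 := by
  have h : ∀ i ∈ B, (c i - t) ^ 2 = c i ^ 2 - 2 * t * c i + t ^ 2 := by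
    intro i _
    ring
  rw [Finset.sum_congr rfl h, Finset.sum_add_distrib, Finset.sum_sub_distrib, ← Finset.mul_sum,
    Finset.sum_const, nsmul_eq_mul]

theorem sum_four_sub (B : Finset (Fin n)) (c : Fin n → ℝ) (t : ℝ) :
    ∑ i ∈ B, (c i - t) ^ 4 = ∑ i ∈ B, c i ^ 4 - 4 * t * ∑ i ∈ B, c i ^ 3 +
      6 * t ^ 2 * ∑ i ∈ B, c i ^ 2 - 4 * t ^ 3 * ∑ i ∈ B, c i + B.card * t ^ 4 := by
  have h : ∀ i ∈ B, (c i - t) ^ 4 = c i ^ 4 - 4 * t * c i ^ 3 + 6 * t ^ 2 * c i ^ 2 -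
      4 * t ^ 3 * c i + t ^ 4 := by
    intro i _
    ring
  rw [Finset.sum_congr rfl h, Finset.sum_add_distrib, Finset.sum_sub_distrib,
    Finset.sum_add_distrib, Finset.sum_sub_distrib, ← Finset.mul_sum, ← Finset.mul_sum,
    ← Finset.mul_sum, Finset.sum_const, nsmul_eq_mul]

theorem sum_dv_sq (B : Finset (Fin n)) (hB : B.Nonempty) (y : Fin n → ℝ) :
    ∑ i, H47.dv B y i ^ 2 = ∑ i ∈ B, y i ^ 2 - (∑ i ∈ B, y i) ^ 2 / B.card := by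
  have h1 : ∑ i, H47.dv B y i ^ 2 = ∑ i ∈ B, H47.dv B y i ^ 2 := by
    symm
    apply Finset.sum_subset (Finset.subset_univ B)
    intro i _ hi
    rw [H47.dv_of_notMem hi]
    ring
  have h2 : ∀ i ∈ B, H47.dv B y i ^ 2 = (y i - (∑ j ∈ B, y j) / B.card) ^ 2 := by
    intro i hi
    rw [H47.dv_of_mem hi]
  have hb : (B.card : ℝ) ≠ 0 := by
    rw [Nat.cast_ne_zero]
    exact Finset.card_ne_zero.2 hB
  rw [h1, Finset.sum_congr rfl h2, sum_sq_sub]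
  field_simp
  ring

theorem ce1 : CE1Stmt := by
  intro n B c
  by_cases hB : B.Nonempty
  · have hb : (B.card : ℝ) ≠ 0 := by
      rw [Nat.cast_ne_zero]
      exact Finset.card_ne_zero.2 hB
    obtain ⟨β, hβ⟩ : ∃ β : ℝ, β = B.card := ⟨_, rfl⟩
    obtain ⟨p1, h1⟩ : ∃ p : ℝ, p = ∑ i ∈ B, c i := ⟨_, rfl⟩
    obtain ⟨p2, h2⟩ : ∃ p : ℝ, p = ∑ i ∈ B, c i ^ 2 := ⟨_, rfl⟩
    obtain ⟨p3, h3⟩ : ∃ p : ℝ, p = ∑ i ∈ B, c i ^ 3 := ⟨_, rfl⟩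
    obtain ⟨p4, h4⟩ : ∃ p : ℝ, p = ∑ i ∈ B, c i ^ 4 := ⟨_, rfl⟩
    rw [← hβ] at hb
    have e1 : ∀ m ∈ B, ∑ i, H47.dv B (fun j => (c j - c m) ^ 2) i ^ 2 =
        (p4 - p2 ^ 2 / β) + (4 * p1 * p2 / β - 4 * p3) * c m +
        (6 * p2 - 4 * p1 ^ 2 / β - 2 * p2) * c m ^ 2 + (4 * p1 - 4 * p1) * c m ^ 3 +
        (β - β) * c m ^ 4 := by
      intro m _
      rw [sum_dv_sq B hB, sum_sq_sub]
      have e2 : ∀ i ∈ B, ((c i - c m) ^ 2) ^ 2 = (c i - c m) ^ 4 := by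
        intro i _
        ring
      rw [Finset.sum_congr rfl e2, sum_four_sub, ← h1, ← h2, ← h3, ← h4, ← hβ]
      field_simp
      ring
    have e3 : ∀ m ∈ B, ∑ i ∈ B, (c m - c i) ^ 4 =
        β * c m ^ 4 - 4 * p1 * c m ^ 3 + 6 * p2 * c m ^ 2 - 4 * p3 * c m + p4 := by
      intro m _
      have e2 : ∀ i ∈ B, (c m - c i) ^ 4 = (c i - c m) ^ 4 := by
        intro i _
        ring
      rw [Finset.sum_congr rfl e2, sum_four_sub, ← h1, ← h2, ← h3, ← h4, ← hβ]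
      ring
    rw [Finset.sum_congr rfl e1, Finset.sum_congr rfl e3]
    simp only [Finset.sum_add_distrib, Finset.sum_sub_distrib, ← Finset.mul_sum,
      Finset.sum_const, nsmul_eq_mul]
    rw [← h1, ← h2, ← h3, ← h4, ← hβ]
    field_simp
    ring
  · rw [Finset.not_nonempty_iff_eq_empty] at hB
    subst hB
    simp

end Pool.Agent.BSE.H59
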