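import Pool.Agent.BSE.Stmts

/-!
# RED: every eigenvalue is large or has a ridge eigenfunction
-/

open MeasureTheory Matrix Finset
open scoped ComplexConjugate

namespace Pool.Agent.BSE.H59

open Pool.Agent.Helper64_FR

variable {n : ℕ}

theorem bil_dg (u v : Fin n → ℂ) (c : Fin n → ℝ) :
    bil u v (dg c) = ∑ i, conj (v i) * u i * (c i : ℂ) := by
  unfold bil dg
  apply Finset.sum_congr rfl
  intro i _
  rw [Finset.sum_eq_single i]
  · rw [Matrix.diagonal_apply_eq]
    ring
  · intro j _ hj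
    rw [Matrix.diagonal_apply_ne _ (Ne.symm hj)]
    ring
  · intro h
    exact absurd (Finset.mem_univ i) h

theorem dim_pos {k : ℕ} {ρ : URep n} {p q : Fin n}
    {T : (Fin ρ.dim → ℂ) →ₗ[ℂ] (Matrix (Fin n) (Fin n) ℂ → ℂ)} (hT : IsBoseMap k ρ p q T) :
    0 < ρ.dim := by
  rw [Nat.pos_iff_ne_zero]
  intro h0
  have hempty : IsEmpty (Fin ρ.dim) := by
    rw [h0]
    infer_instance
  have h1 : orb k p q (1 : UU n) ∈ LinearMap.range T := by
    rw [hT.range_eq]
    exact Submodule.subset_span ⟨1, rfl⟩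
  obtain ⟨v, hv⟩ := h1
  have h2 : v = 0 := Subsingleton.elim _ _
  rw [h2, map_zero] at hv
  have h3 := congrFun hv (Matrix.single p q (1 : ℂ))
  have h4 : orb k p q (1 : UU n) (Matrix.single p q (1 : ℂ)) = 1 := by
    unfold orb
    rw [inv_one]
    have h5 : ((1 : UU n) : Matrix (Fin n) (Fin n) ℂ) = 1 := rfl
    rw [h5, one_mul, mul_one, Matrix.single_apply_same, one_pow]
  rw [h4] at h3
  exact zero_ne_one h3

theorem red (wts : WTSStmt) (ndg : NDGStmt) (eig : EIGStmt) (spn : SPNStmt) : REDStmt := by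
  intro n k hn ρ hρ
  obtain ⟨p, q, hpq, T, hT⟩ := hρ
  refine ⟨dim_pos hT, ?_⟩
  intro w hw μ hμ x v hv hx
  rcases wts n hn ρ w hw μ hμ x v hv hx with h | h
  · exact Or.inl h
  · right
    refine ⟨fun c => T v (dg c), ?_, ?_, eig n k ρ p q hpq T hT w x v hx⟩
    · obtain ⟨N, a, u, v', h1, h2⟩ := spn n k ρ p q hpq T hT v
      refine ⟨N, a, fun t i => conj (v' t i) * u t i, h1, fun c => ?_⟩
      change T v (dg c) = _
      rw [h2]
      apply Finset.sum_congr rfl
      intro t _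
      rw [bil_dg]
    · by_contra hc
      push Not at hc
      exact hv (ndg n k ρ p q hpq T hT v h hc)

end Pool.Agent.BSE.H59
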